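import Pool.Agent.H477.O.Stm2
import Pool.Agent.H195.O.ONZ

set_option autoImplicit false

/-!
# PNZ: explicit version of ONZ (edit of helper195's proof)
-/

open Complex Filter Topology Metric Set MeasureTheory

namespace Pool.Agent.H190.P

open Pool.Agent.H477.O
open Pool.Agent.H195.O (prim)

theorem core (G : ℂ → ℂ) (M ℓ u δ : ℝ) (z : ℂ) (hδ : 0 < δ) (hδ1 : δ ≤ 1) (hℓδ : 64 ≤ ℓ * δ ^ 2)
    (hG : Differentiable ℂ G) (hM : 0 < M)
    (h : ∀ r : ℝ, 0 ≤ r → r ≤ δ → deriv G (z - r) ≠ 0 ∧ ‖logDeriv (deriv G) (z - r) - ℓ‖ ≤ ℓ / 8)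
    (hlow : M * Real.exp (ℓ * (u - δ / 4)) ≤ ‖deriv G z‖)
    (hup : ‖G (z - δ)‖ ≤ M * Real.exp (ℓ * (u - δ + δ / 4))) : G z ≠ 0 := by
  intro hz0
  have hℓ0 : 0 < ℓ := by
    by_contra hcon
    push Not at hcon
    have : ℓ * δ ^ 2 ≤ 0 := mul_nonpos_of_nonpos_of_nonneg hcon (by positivity)
    linarith
  have hℓδ1 : 64 ≤ ℓ * δ := by nlinarith [mul_pos hℓ0 hδ]
  have key := prim G hG δ ℓ hℓ0 z h hδ.le
  rw [hz0, zero_sub] at key
  have hz : deriv G z ≠ 0 := by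
    have := (h 0 le_rfl hδ.le).1
    simpa using this
  have hzn : 0 < ‖deriv G z‖ := norm_pos_iff.2 hz
  set E : ℝ := Real.exp (-(ℓ * δ)) with hE
  set E' : ℝ := Real.exp (-(7 * ℓ / 8 * δ)) with hE'
  have hEE' : E ≤ E' := by
    rw [hE, hE']
    apply Real.exp_le_exp.2
    nlinarith
  have hE0 : 0 < E := Real.exp_pos _
  have hE'0 : 0 < E' := Real.exp_pos _
  have hEh : E ≤ 1 / 2 := by
    rw [hE, Real.exp_neg, inv_eq_one_div]
    apply one_div_le_one_div_of_le (by norm_num)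
    have := Real.add_one_le_exp (ℓ * δ)
    linarith
  -- the difference
  have h1 : (1 - E) / ℓ ≤ ‖-G (z - δ) / deriv G z‖ +
      (8 / (7 * ℓ) * (1 - E') - (1 - E) / ℓ) := by
    have h2 : ‖(((1 - E) / ℓ : ℝ) : ℂ)‖ ≤ ‖-G (z - δ) / deriv G z‖ +
        ‖-G (z - δ) / deriv G z - (((1 - E) / ℓ : ℝ) : ℂ)‖ := by
      have := norm_sub_le (-G (z - δ) / deriv G z)
        (-G (z - δ) / deriv G z - (((1 - E) / ℓ : ℝ) : ℂ))
      rw [sub_sub_cancel] at this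
      exact this
    rw [Complex.norm_real, Real.norm_of_nonneg (div_nonneg (by linarith) hℓ0.le)] at h2
    linarith
  have h3 : 1 / (4 * ℓ) ≤ ‖-G (z - δ) / deriv G z‖ := by
    have h4 : 2 * ((1 - E) / ℓ) - 8 / (7 * ℓ) * (1 - E') ≤ ‖-G (z - δ) / deriv G z‖ := by
      linarith
    refine le_trans ?_ h4
    have h5 : 2 * ((1 - E) / ℓ) - 8 / (7 * ℓ) * (1 - E') - 1 / (4 * ℓ) =
        (2 * (1 - E) - 8 / 7 * (1 - E') - 1 / 4) / ℓ := by
      field_simp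
    have h6 : 0 ≤ (2 * (1 - E) - 8 / 7 * (1 - E') - 1 / 4) / ℓ := by
      apply div_nonneg _ hℓ0.le
      have h7 : E ≤ 1 / 64 := by
        rw [hE, Real.exp_neg, inv_eq_one_div]
        apply one_div_le_one_div_of_le (by norm_num)
        have := Real.add_one_le_exp (ℓ * δ)
        linarith
      nlinarith
    linarith
  rw [norm_div, norm_neg, le_div_iff₀ hzn] at h3
  -- compare
  have h8 : M * Real.exp (ℓ * (u - δ / 4)) / (4 * ℓ) ≤ M * Real.exp (ℓ * (u - δ + δ / 4)) := by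
    refine le_trans ?_ hup
    refine le_trans ?_ h3
    rw [div_eq_inv_mul, ← one_div]
    exact mul_le_mul_of_nonneg_left hlow (by positivity)
  have h9 : Real.exp (ℓ * (u - δ / 4)) = Real.exp (ℓ * (u - δ + δ / 4)) * Real.exp (ℓ * δ / 2) := by
    rw [← Real.exp_add]
    congr 1
    ring
  rw [h9, div_le_iff₀ (by positivity)] at h8
  have h10 : Real.exp (ℓ * δ / 2) ≤ 4 * ℓ := by
    have h11 : 0 < M * Real.exp (ℓ * (u - δ + δ / 4)) := mul_pos hM (Real.exp_pos _)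
    have h12 : M * Real.exp (ℓ * (u - δ + δ / 4)) * Real.exp (ℓ * δ / 2) ≤
        M * Real.exp (ℓ * (u - δ + δ / 4)) * (4 * ℓ) := by linarith
    exact le_of_mul_le_mul_left h12 h11
  have h13 := Real.quadratic_le_exp_of_nonneg (x := ℓ * δ / 2) (by positivity)
  nlinarith

theorem PNZ_proof : S_PNZ := by
  have h1 : ∀ᶠ x : ℝ in atTop, ‖Real.log x ^ 2‖ ≤ 1 / 64 * ‖id x‖ :=
    (Real.isLittleO_pow_log_id_atTop (n := 2)).bound (by norm_num)
  obtain ⟨N, hN⟩ := eventually_atTop.1 h1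
  refine ⟨max N 3, le_max_right _ _, ?_⟩
  intro G M ℓ u δ z hG hM hℓ hδ hδ1 h hlow hup
  have hℓ3 : 3 ≤ ℓ := (le_max_right _ _).trans hℓ
  have h2 := hN ℓ ((le_max_left _ _).trans hℓ)
  rw [Real.norm_of_nonneg (sq_nonneg _), id, Real.norm_of_nonneg (by linarith)] at h2
  have hlog : 0 < Real.log ℓ := Real.log_pos (by linarith)
  have hδ0 : 0 < δ := lt_of_lt_of_le (by positivity) hδ
  have h3 : 1 ≤ δ * Real.log ℓ := by
    rwa [div_le_iff₀ hlog] at hδ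
  have h4 : 1 ≤ (δ * Real.log ℓ) ^ 2 := one_le_pow₀ h3
  refine core G M ℓ u δ z hδ0 hδ1 ?_ hG hM h hlow hup
  have h5 : δ ^ 2 * Real.log ℓ ^ 2 ≤ δ ^ 2 * (1 / 64 * ℓ) :=
    mul_le_mul_of_nonneg_left h2 (sq_nonneg _)
  rw [mul_pow] at h4
  linarith

end Pool.Agent.H190.P
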